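import Pool.Agent.Y745.SW.DefsA

set_option autoImplicit false

/-!
SW project (helper745, MP_6bc78b_nt), job ER1: the integral of the cost of one zero.
-/

namespace Pool.Agent.Y627.SW

open Filter Topology MeasureTheory Complex Pool.Agent.Y745.SW

noncomputable section

lemma VF_cont (B : ℝ → ℝ) (hB : Continuous B) : Continuous (VF B) := by
  unfold VF
  exact intervalIntegral.continuous_parametric_intervalIntegral_of_continuous' (μ := volume)
    (f := fun (z : ℂ) (ξ : ℝ) => (B ξ : ℂ) * cexp (I * ξ * z)) (by fun_prop) (-1) 1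

lemma vt_cont (B : ℝ → ℝ) (hB : Continuous B) (a : ℝ) (z : ℂ) :
    Continuous (fun t : ℝ => vt B a t z) := by
  unfold vt
  exact ((VF_cont B hB).comp (by fun_prop)).mul (by fun_prop)

lemma err_meas (B : ℝ → ℝ) (hB : Continuous B) (a N N0 κ1 Y0 L d η1 : ℝ) (z : ℂ) :
    Measurable (fun t : ℝ => err B a N N0 κ1 Y0 L d η1 t z) := by
  have hv := vt_cont B hB a z
  unfold err
  refine Measurable.add (Measurable.ite ?_ ?_ ?_) (Measurable.ite ?_ ?_ ?_)
  · exact measurableSet_le (by fun_prop) (by fun_prop)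
  · exact Continuous.measurable (by fun_prop)
  · exact measurable_const
  · exact measurableSet_le (by fun_prop) (by fun_prop)
  · exact measurable_const
  · exact Continuous.measurable (by fun_prop)

lemma err_nonneg (B : ℝ → ℝ) (a N N0 κ1 Y0 L d η1 : ℝ) (hη : 0 ≤ η1) (t : ℝ) (z : ℂ) :
    0 ≤ err B a N N0 κ1 Y0 L d η1 t z := by
  unfold err
  refine add_nonneg ?_ ?_
  · split_ifs
    · positivity
    · exact le_rfl
  · split_ifs
    · exact le_rfl
    · positivity

lemma re_eq (a t : ℝ) (z : ℂ) : ((a : ℂ) * (z - (t : ℂ))).re = a * (z.re - t) := by simp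

lemma im_eq (a t : ℝ) (z : ℂ) : ((a : ℂ) * (z - (t : ℂ))).im = a * z.im := by simp

lemma exp_eighth : Real.exp (1 / 8) ≤ 2 := by
  have h := Real.add_one_le_exp (-(1 / 8 : ℝ))
  have h1 : Real.exp (1 / 8) * Real.exp (-(1 / 8)) = 1 := by
    rw [← Real.exp_add]; simp
  have h2 := Real.exp_pos (1 / 8)
  nlinarith

lemma cexp_norm_le (t : ℝ) (z : ℂ) (hz : |z.im| ≤ 1 / 2) :
    ‖cexp (-(z - (t : ℂ)) ^ 2 / 2)‖ ≤ 2 := by
  rw [Complex.norm_exp]
  have h : (-(z - (t : ℂ)) ^ 2 / 2).re = -((z.re - t) ^ 2 - z.im ^ 2) / 2 := by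
    have : -(z - (t : ℂ)) ^ 2 / 2 = ((1 / 2 : ℝ) : ℂ) * (-((z - (t : ℂ)) * (z - (t : ℂ)))) := by
      push_cast; ring
    rw [this, Complex.re_ofReal_mul]
    simp [Complex.mul_re]
    ring
  rw [h]
  refine le_trans (Real.exp_le_exp.mpr ?_) exp_eighth
  have h1 : z.im ^ 2 ≤ (1 / 2) ^ 2 := by
    rw [← sq_abs z.im]
    exact pow_le_pow_left₀ (abs_nonneg _) hz 2
  nlinarith [sq_nonneg (z.re - t)]

lemma vt_norm_le (B : ℝ → ℝ) (a t : ℝ) (z : ℂ) (hz : |z.im| ≤ 1 / 2) :
    ‖vt B a t z‖ ≤ 2 * ‖VF B (a * (z - t))‖ := by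
  unfold vt
  rw [norm_mul, mul_comm]
  exact mul_le_mul_of_nonneg_right (cexp_norm_le t z hz) (norm_nonneg _)

lemma VF_glob {j : ℕ} {C N : ℝ} {B : ℝ → ℝ} (hC : 1 ≤ C) (W : Wf j C N B) (ζ : ℂ) :
    ‖VF B ζ‖ ≤ 1 + C * Real.exp |ζ.im| := by
  have hC0 : 0 ≤ C := by linarith
  have hp : 0 ≤ C * Real.exp |ζ.im| := by positivity
  rcases le_total |ζ.re| N with h | h
  · have h1 := W.inner ζ h
    have h2 : (1:ℝ) ≤ (1 + (N - |ζ.re|)) ^ j := one_le_pow₀ (by linarith)
    have h3 : C * Real.exp |ζ.im| / (1 + (N - |ζ.re|)) ^ j ≤ C * Real.exp |ζ.im| :=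
      div_le_self hp h2
    calc ‖VF B ζ‖ = ‖(1 : ℂ) + (VF B ζ - 1)‖ := by congr 1; ring
      _ ≤ ‖(1 : ℂ)‖ + ‖VF B ζ - 1‖ := norm_add_le _ _
      _ ≤ 1 + C * Real.exp |ζ.im| := by rw [norm_one]; linarith
  · have h1 := W.outer ζ h
    have h2 : (1:ℝ) ≤ (1 + (|ζ.re| - N)) ^ j := one_le_pow₀ (by linarith)
    have h3 : C * Real.exp |ζ.im| / (1 + (|ζ.re| - N)) ^ j ≤ C * Real.exp |ζ.im| :=
      div_le_self hp h2
    linarith

/-- the majorant for the outer decay -/
def Kf (a N w : ℝ) : ℝ := (1 + (a * w - N) ^ 2)⁻¹ + (1 + (a * w + N) ^ 2)⁻¹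

lemma Kf_nonneg (a N w : ℝ) : 0 ≤ Kf a N w := by unfold Kf; positivity

lemma Kf_ge (a N w : ℝ) (h : N ≤ |a * w|) : 1 / (1 + (|a * w| - N)) ^ 2 ≤ Kf a N w := by
  unfold Kf
  have p1 : 0 ≤ (1 + (a * w - N) ^ 2)⁻¹ := by positivity
  have p2 : 0 ≤ (1 + (a * w + N) ^ 2)⁻¹ := by positivity
  rcases le_total 0 (a * w) with h0 | h0
  · rw [abs_of_nonneg h0] at h ⊢
    have h1 : 1 / (1 + (a * w - N)) ^ 2 ≤ (1 + (a * w - N) ^ 2)⁻¹ := by
      rw [one_div]
      apply inv_anti₀ (by positivity)
      nlinarith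
    linarith
  · rw [abs_of_nonpos h0] at h ⊢
    have h1 : 1 / (1 + (-(a * w) - N)) ^ 2 ≤ (1 + (a * w + N) ^ 2)⁻¹ := by
      rw [one_div]
      apply inv_anti₀ (by positivity)
      nlinarith
    linarith

lemma aux_int (a N : ℝ) (ha : 0 < a) :
    Integrable (fun w : ℝ => (1 + (a * w - N) ^ 2)⁻¹) ∧
      ∫ w : ℝ, (1 + (a * w - N) ^ 2)⁻¹ = Real.pi / a := by
  have h0 : Integrable (fun x : ℝ => (1 + x ^ 2)⁻¹) := integrable_inv_one_add_sq
  have h1 : Integrable (fun x : ℝ => (1 + (x - N) ^ 2)⁻¹) := h0.comp_sub_right N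
  have h2 := h1.comp_mul_left' (R := a) ha.ne'
  refine ⟨h2, ?_⟩
  have e1 := Measure.integral_comp_mul_left (fun x : ℝ => (1 + (x - N) ^ 2)⁻¹) a
  rw [e1]
  have e2 := integral_sub_right_eq_self (μ := volume) (fun x : ℝ => (1 + x ^ 2)⁻¹) N
  rw [e2, integral_univ_inv_one_add_sq, smul_eq_mul, abs_of_pos (inv_pos.mpr ha)]
  field_simp

lemma Kf_int (a N x : ℝ) (ha : 0 < a) :
    Integrable (fun t : ℝ => Kf a N (x - t)) ∧ ∫ t : ℝ, Kf a N (x - t) = 2 * Real.pi / a := by
  have h1 := aux_int a N ha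
  have h2 := aux_int a (-N) ha
  simp only [sub_neg_eq_add] at h2
  have h3 : Integrable (fun w : ℝ => Kf a N w) := h1.1.add h2.1
  refine ⟨h3.comp_sub_left x, ?_⟩
  rw [integral_sub_left_eq_self (fun w => Kf a N w) volume x]
  unfold Kf
  rw [integral_add h1.1 h2.1, h1.2, h2.2]
  ring

lemma ind_int (p q c : ℝ) (h : p ≤ q) :
    Integrable ((Set.Icc p q).indicator (fun _ => c)) ∧
      ∫ t : ℝ, (Set.Icc p q).indicator (fun _ => c) t = c * (q - p) := by
  constructor
  · rw [integrable_indicator_iff measurableSet_Icc]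
    exact integrableOn_const (by simp) (by simp)
  · rw [integral_indicator measurableSet_Icc, setIntegral_const]
    simp [Measure.real, Real.volume_Icc, ENNReal.toReal_ofReal (sub_nonneg.mpr h), mul_comm]

lemma outer_bd {j : ℕ} {C N : ℝ} {B : ℝ → ℝ} (hC : 1 ≤ C) (W : Wf j C N B) (hj : 2 ≤ j)
    (a t : ℝ) (z : ℂ) (h : N ≤ |a * (z.re - t)|) :
    ‖VF B (a * (z - t))‖ ≤ C * Real.exp |a * z.im| * Kf a N (z.re - t) := by
  have hC0 : 0 ≤ C := by linarith
  have h1 := W.outer ((a : ℂ) * (z - (t : ℂ))) (by rw [re_eq]; exact h)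
  rw [re_eq, im_eq] at h1
  refine h1.trans ?_
  have hp : 0 ≤ C * Real.exp |a * z.im| := by positivity
  rw [div_eq_mul_one_div]
  apply mul_le_mul_of_nonneg_left _ hp
  refine le_trans ?_ (Kf_ge a N (z.re - t) h)
  apply one_div_le_one_div_of_le
  · have : 0 < 1 + (|a * (z.re - t)| - N) := by linarith
    positivity
  · exact pow_le_pow_right₀ (by linarith) hj

lemma outer_bd2 {j : ℕ} {C N : ℝ} {B : ℝ → ℝ} (hC : 1 ≤ C) (W : Wf (j + 2) C N B)
    (a t : ℝ) (z : ℂ) (q : ℝ) (hq0 : 0 < q) (hq : N + q - 1 ≤ |a * (z.re - t)|)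
    (h : N ≤ |a * (z.re - t)|) :
    ‖VF B (a * (z - t))‖ ≤ C * Real.exp |a * z.im| / q ^ j * Kf a N (z.re - t) := by
  have hC0 : 0 ≤ C := by linarith
  have h1 := W.outer ((a : ℂ) * (z - (t : ℂ))) (by rw [re_eq]; exact h)
  rw [re_eq, im_eq] at h1
  refine h1.trans ?_
  have hp : 0 ≤ C * Real.exp |a * z.im| := by positivity
  have hpos : 0 < 1 + (|a * (z.re - t)| - N) := by linarith
  rw [pow_add, ← div_div, div_eq_mul_one_div _ ((1 + (|a * (z.re - t)| - N)) ^ 2)]
  apply mul_le_mul
  · apply div_le_div_of_nonneg_left hp (by positivity)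
    exact pow_le_pow_left₀ hq0.le (by linarith) j
  · exact Kf_ge a N (z.re - t) h
  · positivity
  · positivity

lemma caseA {j : ℕ} {C N N0 κ1 Y0 L d η1 τ ε : ℝ} {B : ℝ → ℝ} (hC : 1 ≤ C) (W : Wf j C N B)
    (hj : 2 ≤ j) (hY0 : 1 ≤ Y0) (hε : 0 < ε) (hN0 : 1 ≤ N0) (hN0' : 36 * (C * Real.exp Y0) ≤ ε * N0)
    (hN : 2 * N0 ≤ N) (hN1 : 6 * (4 * (1 + C * Real.exp Y0) * Real.exp Y0) * (N0 + 1) ≤ ε * N)
    (hN2 : 24 * (4 * (C * Real.exp Y0) * Real.exp Y0) ≤ ε * N)
    (hτ : 0 < τ) (hτ' : τ ≤ 1 / 4) (hL : 0 < L)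
    (hL1 : ((N / τ + Y0) / L) ^ 2 ≤ 1) (hL2 : 36 * (1 + C * Real.exp Y0) * ((N / τ + Y0) / L) ^ 2 ≤ ε)
    (hd : 0 ≤ d) (hd' : d ≤ 1 / L) (hη : 0 ≤ η1) (z : ℂ) (hz : |z.im| ≤ 1 / 2)
    (hzY : |z.im| * L < Y0) :
    Integrable (fun t : ℝ => err B (τ * L) N N0 κ1 Y0 L d η1 t z) ∧
    ∫ t : ℝ, err B (τ * L) N N0 κ1 Y0 L d η1 t z ≤ N / (τ * L) * (3 * η1 + ε) := by
  have ha : 0 < τ * L := by positivity
  set a := τ * L with hadef
  set D := C * Real.exp Y0 with hD
  have hD1 : 1 ≤ D := by
    have : 1 ≤ Real.exp Y0 := Real.one_le_exp (by linarith)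
    nlinarith
  have hN00 : 0 < N := by linarith
  have had : a * d ≤ τ := by
    calc a * d ≤ a * (1 / L) := mul_le_mul_of_nonneg_left hd' ha.le
      _ = τ := by rw [hadef]; field_simp
  have hth : th a N N0 κ1 Y0 L |z.im| = (N - N0) / a := by
    unfold th; rw [if_pos hzY]
  have him : |a * z.im| ≤ Y0 := by
    rw [abs_mul, abs_of_pos ha, hadef]
    have h1 : τ * L * |z.im| = τ * (|z.im| * L) := by ring
    rw [h1]
    have h2 : 0 ≤ |z.im| * L := by positivity
    nlinarith
  have hexp : C * Real.exp |a * z.im| ≤ D :=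
    mul_le_mul_of_nonneg_left (Real.exp_le_exp.mpr him) (by linarith)
  -- the bound
  set R1 := (N - N0) / a + 2 * d with hR1
  set r := (N - N0) / a - 2 * d with hr
  have haR1 : a * R1 = N - N0 + 2 * (a * d) := by rw [hR1]; field_simp
  have har : a * r = N - N0 - 2 * (a * d) := by rw [hr]; field_simp
  have hR1p : 0 ≤ R1 := by
    have : 0 ≤ (N - N0) / a := div_nonneg (by linarith) ha.le
    linarith
  have hrN : r ≤ N / a := by
    rw [le_div_iff₀ ha]; nlinarith [mul_nonneg ha.le hd]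
  have hrp : 0 ≤ r := by
    by_contra hneg
    push Not at hneg
    nlinarith
  set c1 := η1 + ε / 9 with hc1
  set c2 := 4 * (1 + D) * Real.exp Y0 with hc2
  set c3 := 4 * D * Real.exp Y0 with hc3
  have hc1p : 0 ≤ c1 := by positivity
  have hc2p : 0 ≤ c2 := by positivity
  have hc3p : 0 ≤ c3 := by positivity
  set G : ℝ → ℝ := fun t => (Set.Icc (z.re - R1) (z.re + R1)).indicator (fun _ => c1) t +
    (((Set.Icc (z.re - N / a) (z.re - r)).indicator (fun _ => c2) t +
      (Set.Icc (z.re + r) (z.re + N / a)).indicator (fun _ => c2) t) +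
      c3 * Kf a N (z.re - t)) with hG
  have hpt : ∀ t, err B a N N0 κ1 Y0 L d η1 t z ≤ G t := by
    intro t
    unfold err
    rw [hth]
    refine add_le_add ?_ ?_
    · split_ifs with h
      · -- the active zone
        have hmem : t ∈ Set.Icc (z.re - R1) (z.re + R1) := by
          rw [abs_le] at h
          exact ⟨by linarith [h.2], by linarith [h.1]⟩
        rw [Set.indicator_of_mem hmem]
        have haw : |a * (z.re - t)| ≤ N - N0 + 1 / 2 := by
          rw [abs_mul, abs_of_pos ha]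
          calc a * |z.re - t| ≤ a * R1 := mul_le_mul_of_nonneg_left h ha.le
            _ ≤ N - N0 + 1 / 2 := by rw [haR1]; linarith
        -- VF is close to one
        have h1 : ‖VF B (a * (z - t)) - 1‖ ≤ D / N0 := by
          have h2 := W.inner ((a : ℂ) * (z - (t : ℂ))) (by rw [re_eq]; linarith)
          rw [re_eq, im_eq] at h2
          refine h2.trans ?_
          apply div_le_div₀ (by linarith) hexp (by linarith)
          calc N0 ≤ 1 + (N - |a * (z.re - t)|) := by linarith
            _ ≤ (1 + (N - |a * (z.re - t)|)) ^ j :=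
                le_self_pow₀ (by linarith) (by omega)
        have h1' : D / N0 ≤ ε / 36 := by
          rw [div_le_iff₀ (by linarith)]
          nlinarith
        -- the exponential
        have hzt : ‖z - (t : ℂ)‖ ≤ (N / τ + Y0) / L := by
          have h3 : ‖z - (t : ℂ)‖ ≤ |(z - (t : ℂ)).re| + |(z - (t : ℂ)).im| :=
            Complex.norm_le_abs_re_add_abs_im _
          have h4 : (z - (t : ℂ)).re = z.re - t := by simp
          have h5 : (z - (t : ℂ)).im = z.im := by simp
          rw [h4, h5] at h3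
          have h6 : |z.re - t| ≤ N / a := by
            rw [le_div_iff₀ ha]
            calc |z.re - t| * a = |a * (z.re - t)| := by rw [abs_mul, abs_of_pos ha]; ring
              _ ≤ N := by linarith
          have h7 : |z.im| ≤ Y0 / L := by
            rw [le_div_iff₀ hL]; exact hzY.le
          have h8 : (N / τ + Y0) / L = N / a + Y0 / L := by
            rw [hadef]; field_simp
          rw [h8]; linarith
        have hsq : ‖-(z - (t : ℂ)) ^ 2 / 2‖ ≤ ((N / τ + Y0) / L) ^ 2 / 2 := by
          rw [norm_div, norm_neg, norm_pow]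
          have : ‖(2 : ℂ)‖ = 2 := by simp
          rw [this]
          have := pow_le_pow_left₀ (norm_nonneg _) hzt 2
          linarith
        have h9 : ‖cexp (-(z - (t : ℂ)) ^ 2 / 2) - 1‖ ≤ ((N / τ + Y0) / L) ^ 2 := by
          have := Complex.norm_exp_sub_one_le (x := -(z - (t : ℂ)) ^ 2 / 2) (by linarith)
          linarith
        have h10 : ‖VF B (a * (z - t))‖ ≤ 1 + D := by
          have := VF_glob hC W ((a : ℂ) * (z - (t : ℂ)))
          rw [im_eq] at this
          linarith
        have h11 : ‖1 - vt B a t z‖ ≤ ε / 36 + ε / 36 := by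
          have e : 1 - vt B a t z = -(VF B (a * (z - t)) - 1) -
              VF B (a * (z - t)) * (cexp (-(z - (t : ℂ)) ^ 2 / 2) - 1) := by
            unfold vt; ring
          rw [e]
          refine (norm_sub_le _ _).trans ?_
          rw [norm_neg, norm_mul]
          have h12 : ‖VF B (a * (z - t))‖ * ‖cexp (-(z - (t : ℂ)) ^ 2 / 2) - 1‖ ≤
              (1 + D) * ((N / τ + Y0) / L) ^ 2 :=
            mul_le_mul h10 h9 (norm_nonneg _) (by linarith)
          have h13 : (1 + D) * ((N / τ + Y0) / L) ^ 2 ≤ ε / 36 := by linarith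
          linarith
        rw [hc1]
        linarith
      · exact Set.indicator_nonneg (fun _ _ => hc1p) _
    · have hK : 0 ≤ c3 * Kf a N (z.re - t) := mul_nonneg hc3p (Kf_nonneg _ _ _)
      have hi1 : 0 ≤ (Set.Icc (z.re - N / a) (z.re - r)).indicator (fun _ => c2) t :=
        Set.indicator_nonneg (fun _ _ => hc2p) _
      have hi2 : 0 ≤ (Set.Icc (z.re + r) (z.re + N / a)).indicator (fun _ => c2) t :=
        Set.indicator_nonneg (fun _ _ => hc2p) _
      split_ifs with h
      · linarith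
      · push Not at h
        have hv := vt_norm_le B a t z hz
        have hexY : Real.exp (|z.im| * L) ≤ Real.exp Y0 := Real.exp_le_exp.mpr hzY.le
        have hexp0 : 0 < Real.exp (|z.im| * L) := Real.exp_pos _
        rcases le_total |z.re - t| (N / a) with h1 | h1
        · have h10 : ‖VF B (a * (z - t))‖ ≤ 1 + D := by
            have := VF_glob hC W ((a : ℂ) * (z - (t : ℂ)))
            rw [im_eq] at this
            linarith
          have h2 : 2 * ‖vt B a t z‖ * Real.exp (|z.im| * L) ≤ c2 := by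
            rw [hc2]
            apply mul_le_mul _ hexY hexp0.le (by positivity)
            linarith
          have h3 : c2 ≤ (Set.Icc (z.re - N / a) (z.re - r)).indicator (fun _ => c2) t +
              (Set.Icc (z.re + r) (z.re + N / a)).indicator (fun _ => c2) t := by
            rcases le_total 0 (z.re - t) with h0 | h0
            · rw [abs_of_nonneg h0] at h h1
              have hmem : t ∈ Set.Icc (z.re - N / a) (z.re - r) := ⟨by linarith, by linarith⟩
              rw [Set.indicator_of_mem hmem]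
              linarith
            · rw [abs_of_nonpos h0] at h h1
              have hmem : t ∈ Set.Icc (z.re + r) (z.re + N / a) := ⟨by linarith, by linarith⟩
              rw [Set.indicator_of_mem hmem]
              linarith
          linarith
        · have hge : N ≤ |a * (z.re - t)| := by
            rw [abs_mul, abs_of_pos ha]
            rw [div_le_iff₀ ha] at h1
            linarith
          have h2 := outer_bd hC W hj a t z hge
          have hKn := Kf_nonneg a N (z.re - t)
          have h3 : ‖VF B (a * (z - t))‖ ≤ D * Kf a N (z.re - t) :=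
            h2.trans (mul_le_mul_of_nonneg_right hexp hKn)
          have h4 : 2 * ‖vt B a t z‖ * Real.exp (|z.im| * L) ≤
              (4 * (D * Kf a N (z.re - t))) * Real.exp Y0 := by
            apply mul_le_mul _ hexY hexp0.le
            · have : 0 ≤ D * Kf a N (z.re - t) := mul_nonneg (by linarith) hKn
              linarith
            · linarith
          have h5 : (4 * (D * Kf a N (z.re - t))) * Real.exp Y0 = c3 * Kf a N (z.re - t) := by
            rw [hc3]; ring
          linarith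
  have I1 := ind_int (z.re - R1) (z.re + R1) c1 (by linarith)
  have I2 := ind_int (z.re - N / a) (z.re - r) c2 (by linarith)
  have I3 := ind_int (z.re + r) (z.re + N / a) c2 (by linarith)
  have I4 := Kf_int a N z.re ha
  have hGi : Integrable G := I1.1.add ((I2.1.add I3.1).add (I4.1.const_mul c3))
  have hGint : ∫ t, G t = c1 * (2 * R1) + (c2 * (N / a - r) * 2 + c3 * (2 * Real.pi / a)) := by
    have s1 : ∫ t, G t = (∫ t, (Set.Icc (z.re - R1) (z.re + R1)).indicator (fun _ => c1) t) +
        ∫ t, (((Set.Icc (z.re - N / a) (z.re - r)).indicator (fun _ => c2) t +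
          (Set.Icc (z.re + r) (z.re + N / a)).indicator (fun _ => c2) t) +
          c3 * Kf a N (z.re - t)) :=
      integral_add I1.1 ((I2.1.add I3.1).add (I4.1.const_mul c3))
    have s2 : ∫ t, (((Set.Icc (z.re - N / a) (z.re - r)).indicator (fun _ => c2) t +
          (Set.Icc (z.re + r) (z.re + N / a)).indicator (fun _ => c2) t) +
          c3 * Kf a N (z.re - t)) =
        (∫ t, ((Set.Icc (z.re - N / a) (z.re - r)).indicator (fun _ => c2) t +
          (Set.Icc (z.re + r) (z.re + N / a)).indicator (fun _ => c2) t)) +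
        ∫ t, c3 * Kf a N (z.re - t) :=
      integral_add (I2.1.add I3.1) (I4.1.const_mul c3)
    have s3 : ∫ t, ((Set.Icc (z.re - N / a) (z.re - r)).indicator (fun _ => c2) t +
          (Set.Icc (z.re + r) (z.re + N / a)).indicator (fun _ => c2) t) =
        (∫ t, (Set.Icc (z.re - N / a) (z.re - r)).indicator (fun _ => c2) t) +
        ∫ t, (Set.Icc (z.re + r) (z.re + N / a)).indicator (fun _ => c2) t :=
      integral_add I2.1 I3.1
    rw [s1, s2, s3, I1.2, I2.2, I3.2, integral_const_mul, I4.2]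
    ring
  have hEi : Integrable (fun t : ℝ => err B a N N0 κ1 Y0 L d η1 t z) := by
    refine hGi.mono' (err_meas B W.cont a N N0 κ1 Y0 L d η1 z).aestronglyMeasurable ?_
    refine Eventually.of_forall fun t => ?_
    rw [Real.norm_of_nonneg (err_nonneg B a N N0 κ1 Y0 L d η1 hη t z)]
    exact hpt t
  refine ⟨hEi, ?_⟩
  calc ∫ t : ℝ, err B a N N0 κ1 Y0 L d η1 t z ≤ ∫ t, G t := integral_mono hEi hGi hpt
    _ = c1 * (2 * R1) + (c2 * (N / a - r) * 2 + c3 * (2 * Real.pi / a)) := hGint
    _ ≤ N / a * (3 * η1 + ε) := by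
      have e1 : 2 * R1 ≤ 3 * N / a := by
        rw [le_div_iff₀ ha]
        nlinarith
      have e2 : N / a - r ≤ (N0 + 1) / a := by
        rw [hr, le_div_iff₀ ha]
        have : (N / a - ((N - N0) / a - 2 * d)) * a = N0 + 2 * (a * d) := by field_simp; ring
        rw [this]; linarith
      have e3 : c1 * (2 * R1) ≤ c1 * (3 * N / a) := mul_le_mul_of_nonneg_left e1 hc1p
      have e4 : c2 * (N / a - r) * 2 ≤ c2 * ((N0 + 1) / a) * 2 := by
        have := mul_le_mul_of_nonneg_left e2 hc2p
        linarith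
      have e5 : c3 * (2 * Real.pi / a) ≤ c3 * (8 / a) := by
        apply mul_le_mul_of_nonneg_left _ hc3p
        apply div_le_div_of_nonneg_right _ ha.le
        have := Real.pi_le_four
        linarith
      have e6 : c1 * (3 * N / a) + (c2 * ((N0 + 1) / a) * 2 + c3 * (8 / a)) =
          (c1 * (3 * N) + (c2 * (N0 + 1) * 2 + c3 * 8)) / a := by ring
      have e7 : N / a * (3 * η1 + ε) = (N * (3 * η1 + ε)) / a := by ring
      have e8 : c1 * (3 * N) + (c2 * (N0 + 1) * 2 + c3 * 8) ≤ N * (3 * η1 + ε) := by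
        rw [hc1]
        nlinarith
      have e9 := div_le_div_of_nonneg_right e8 ha.le
      rw [e7]
      linarith

lemma caseB {j : ℕ} {C N N0 κ κ1 Y0 L d η1 τ : ℝ} {B : ℝ → ℝ} (hC : 1 ≤ C)
    (W : Wf (j + 2) C N B) (hκ : 0 < κ) (hκ1 : κ1 = κ / 4) (hj : 2 ≤ κ1 * j) (hY0 : 1 ≤ Y0)
    (hN : 1 ≤ N)
    (hτ : 0 < τ) (hτ' : τ ≤ 1 / 4) (hτκ : τ ≤ κ / 4) (hL : 0 < L)
    (hd : 0 ≤ d) (hd' : d ≤ 1 / L) (hη : 0 ≤ η1) (hη' : η1 ≤ 1) (z : ℂ) (hz : |z.im| ≤ 1 / 2)
    (hzY : Y0 ≤ |z.im| * L) :
    Integrable (fun t : ℝ => err B (τ * L) N N0 κ1 Y0 L d η1 t z) ∧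
    ∫ t : ℝ, err B (τ * L) N N0 κ1 Y0 L d η1 t z ≤
      N / (τ * L) * (87 * C * Real.exp (κ * (|z.im| * L) / 2)) := by
  have ha : 0 < τ * L := by positivity
  set a := τ * L with hadef
  set Y := |z.im| * L with hY
  have hYp : 0 < Y := by linarith
  have had : a * d ≤ τ := by
    calc a * d ≤ a * (1 / L) := mul_le_mul_of_nonneg_left hd' ha.le
      _ = τ := by rw [hadef]; field_simp
  have hth : th a N N0 κ1 Y0 L |z.im| = (N + Real.exp (κ1 * Y)) / a := by
    unfold th; rw [if_neg (not_lt.mpr hzY)]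
  have him : |a * z.im| = τ * Y := by
    rw [abs_mul, abs_of_pos ha, hadef, hY]; ring
  have hκ1p : 0 < κ1 := by rw [hκ1]; linarith
  set q := Real.exp (κ1 * Y) with hq
  have hq1 : 1 ≤ q := Real.one_le_exp (by positivity)
  set R1 := (N + q) / a + 2 * d with hR1
  set r := (N + q) / a - 2 * d with hr
  have haR1 : a * R1 = N + q + 2 * (a * d) := by rw [hR1]; field_simp
  have har : a * r = N + q - 2 * (a * d) := by rw [hr]; field_simp
  have hR1p : 0 ≤ R1 := by positivity
  set E := Real.exp (τ * Y) with hE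
  have hE1 : 1 ≤ E := Real.one_le_exp (by positivity)
  set c1 := 11 * C * E with hc1
  have hc1p : 0 ≤ c1 := by positivity
  set G : ℝ → ℝ := fun t => (Set.Icc (z.re - R1) (z.re + R1)).indicator (fun _ => c1) t +
      4 * C * Kf a N (z.re - t) with hG
  have hglob : ∀ t : ℝ, ‖VF B (a * (z - t))‖ ≤ 1 + C * E := by
    intro t
    have := VF_glob hC W ((a : ℂ) * (z - (t : ℂ)))
    rw [im_eq, him] at this
    exact this
  have hpt : ∀ t, err B a N N0 κ1 Y0 L d η1 t z ≤ G t := by
    intro t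
    unfold err
    rw [hth]
    have hv := vt_norm_le B a t z hz
    refine add_le_add ?_ ?_
    · split_ifs with h
      · have hmem : t ∈ Set.Icc (z.re - R1) (z.re + R1) := by
          rw [abs_le] at h
          exact ⟨by linarith [h.2], by linarith [h.1]⟩
        rw [Set.indicator_of_mem hmem]
        have h1 : ‖1 - vt B a t z‖ ≤ 1 + ‖vt B a t z‖ := by
          refine (norm_sub_le _ _).trans ?_
          rw [norm_one]
        have h2 := hglob t
        have h3 : 1 ≤ C * E := by nlinarith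
        rw [hc1]
        linarith
      · exact Set.indicator_nonneg (fun _ _ => hc1p) _
    · have hKn := Kf_nonneg a N (z.re - t)
      split_ifs with h
      · positivity
      · push Not at h
        have hge' : N + q - 1 ≤ |a * (z.re - t)| := by
          rw [abs_mul, abs_of_pos ha]
          have h1 : a * r ≤ a * |z.re - t| := mul_le_mul_of_nonneg_left h.le ha.le
          rw [har] at h1
          linarith
        have hge : N ≤ |a * (z.re - t)| := by linarith
        have h2 := outer_bd2 hC W a t z q (by linarith) hge' hge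
        rw [him] at h2
        have h3 : E * Real.exp Y ≤ q ^ j := by
          rw [hE, hq, ← Real.exp_add, ← Real.exp_nat_mul]
          apply Real.exp_le_exp.mpr
          have : τ * Y + Y ≤ 2 * Y := by nlinarith
          have h4 : 2 * Y ≤ (κ1 * j) * Y := mul_le_mul_of_nonneg_right hj hYp.le
          calc τ * Y + Y ≤ 2 * Y := this
            _ ≤ (κ1 * j) * Y := h4
            _ = j * (κ1 * Y) := by ring
        have hqj : 0 < q ^ j := by positivity
        have h5 : C * E / q ^ j * Kf a N (z.re - t) * Real.exp Y ≤ C * Kf a N (z.re - t) := by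
          have : C * E / q ^ j * Kf a N (z.re - t) * Real.exp Y =
              (C * Kf a N (z.re - t)) * (E * Real.exp Y / q ^ j) := by ring
          rw [this]
          have h6 : E * Real.exp Y / q ^ j ≤ 1 := by
            rw [div_le_one hqj]; exact h3
          have h7 : 0 ≤ C * Kf a N (z.re - t) := by positivity
          nlinarith
        have hexp0 : 0 < Real.exp Y := Real.exp_pos _
        calc 2 * ‖vt B a t z‖ * Real.exp Y
            ≤ 2 * (2 * (C * E / q ^ j * Kf a N (z.re - t))) * Real.exp Y := by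
              apply mul_le_mul_of_nonneg_right _ hexp0.le
              linarith
          _ = 4 * (C * E / q ^ j * Kf a N (z.re - t) * Real.exp Y) := by ring
          _ ≤ 4 * (C * Kf a N (z.re - t)) := by linarith
          _ = 4 * C * Kf a N (z.re - t) := by ring
  have I1 := ind_int (z.re - R1) (z.re + R1) c1 (by linarith)
  have I4 := Kf_int a N z.re ha
  have hGi : Integrable G := I1.1.add (I4.1.const_mul (4 * C))
  have hGint : ∫ t, G t = c1 * (2 * R1) + 4 * C * (2 * Real.pi / a) := by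
    rw [hG]
    rw [integral_add I1.1 (I4.1.const_mul (4 * C)),
      I1.2, integral_const_mul, I4.2]
    ring
  have hEi : Integrable (fun t : ℝ => err B a N N0 κ1 Y0 L d η1 t z) := by
    refine hGi.mono' (err_meas B W.cont a N N0 κ1 Y0 L d η1 z).aestronglyMeasurable ?_
    refine Eventually.of_forall fun t => ?_
    rw [Real.norm_of_nonneg (err_nonneg B a N N0 κ1 Y0 L d η1 hη t z)]
    exact hpt t
  refine ⟨hEi, ?_⟩
  calc ∫ t : ℝ, err B a N N0 κ1 Y0 L d η1 t z ≤ ∫ t, G t := integral_mono hEi hGi hpt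
    _ = c1 * (2 * R1) + 4 * C * (2 * Real.pi / a) := hGint
    _ ≤ N / a * (87 * C * Real.exp (κ * Y / 2)) := by
      have hEq : E * q ≤ Real.exp (κ * Y / 2) := by
        rw [hE, hq, ← Real.exp_add]
        apply Real.exp_le_exp.mpr
        rw [hκ1]
        nlinarith
      have hX1 : 1 ≤ Real.exp (κ * Y / 2) := Real.one_le_exp (by positivity)
      have e1 : 2 * R1 ≤ 5 * N * q / a := by
        rw [le_div_iff₀ ha]
        have : 2 * R1 * a = 2 * (a * R1) := by ring
        rw [this, haR1]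
        nlinarith [mul_nonneg (sub_nonneg.mpr hN) (sub_nonneg.mpr hq1)]
      have e3 : c1 * (2 * R1) ≤ c1 * (5 * N * q / a) := mul_le_mul_of_nonneg_left e1 hc1p
      have e4 : c1 * (5 * N * q / a) = (55 * C * N * (E * q)) / a := by rw [hc1]; ring
      have e5 : 55 * C * N * (E * q) ≤ 55 * C * N * Real.exp (κ * Y / 2) :=
        mul_le_mul_of_nonneg_left hEq (by positivity)
      have e6 := div_le_div_of_nonneg_right e5 ha.le
      have e7 : 4 * C * (2 * Real.pi / a) ≤ (32 * C * N * Real.exp (κ * Y / 2)) / a := by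
        have : 4 * C * (2 * Real.pi / a) = (8 * C * Real.pi) / a := by ring
        rw [this]
        apply div_le_div_of_nonneg_right _ ha.le
        have hpi := Real.pi_le_four
        have h1 : 8 * C * Real.pi ≤ 32 * C := by nlinarith
        have h2 : 1 ≤ N * Real.exp (κ * Y / 2) := by nlinarith
        have h3 : 32 * C * 1 ≤ 32 * C * (N * Real.exp (κ * Y / 2)) :=
          mul_le_mul_of_nonneg_left h2 (by positivity)
        nlinarith
      have e8 : N / a * (87 * C * Real.exp (κ * Y / 2)) =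
          (55 * C * N * Real.exp (κ * Y / 2)) / a + (32 * C * N * Real.exp (κ * Y / 2)) / a := by
        ring
      rw [e8]
      linarith

/-- ER1: the integral of the cost of one zero -/
theorem t_ER1 : Pool.Agent.Y745.SW.P_ER1 := by
  intro κ hκ
  set κ1 := κ / 4 with hκ1
  have hκ1p : 0 < κ1 := by rw [hκ1]; linarith
  refine ⟨⌈2 / κ1⌉₊ + 2, κ1, min (κ / 4) (1 / 4), hκ1p, lt_min (by linarith) (by norm_num),
    (min_le_right _ _).trans (by norm_num), ?_⟩
  have hj : 2 ≤ κ1 * (⌈2 / κ1⌉₊ : ℝ) := by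
    have := Nat.le_ceil (2 / κ1)
    rw [div_le_iff₀ hκ1p] at this
    linarith
  intro C hC
  refine ⟨87 * C, by linarith, ?_⟩
  intro Y0 ε hY0 hε
  set D := C * Real.exp Y0 with hD
  have hD0 : 0 < D := by positivity
  set N0 := 1 + 36 * D / ε with hN0
  have hN0p : 1 ≤ N0 := by rw [hN0]; have : 0 ≤ 36 * D / ε := by positivity
                           linarith
  set A := 6 * (4 * (1 + D) * Real.exp Y0) * (N0 + 1) with hA
  set A' := 24 * (4 * D * Real.exp Y0) with hA'
  have hA0 : 0 ≤ A := by positivity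
  have hA'0 : 0 ≤ A' := by positivity
  set N1 := 2 * N0 + A / ε + A' / ε with hN1
  have hAε : 0 ≤ A / ε := by positivity
  have hA'ε : 0 ≤ A' / ε := by positivity
  refine ⟨N0, N1, hN0p, by linarith, by linarith, ?_⟩
  intro N τ hN hτ hτ'
  have hτ4 : τ ≤ 1 / 4 := hτ'.trans (min_le_right _ _)
  have hτκ : τ ≤ κ / 4 := hτ'.trans (min_le_left _ _)
  have hlim : Tendsto (fun L : ℝ => ((N / τ + Y0) / L) ^ 2) atTop (𝓝 0) := by
    have h1 : Tendsto (fun L : ℝ => (N / τ + Y0) / L) atTop (𝓝 0) :=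
      tendsto_const_nhds.div_atTop tendsto_id
    have h2 := h1.pow 2
    simpa using h2
  have hlim2 : Tendsto (fun L : ℝ => 36 * (1 + D) * ((N / τ + Y0) / L) ^ 2) atTop (𝓝 0) := by
    have := hlim.const_mul (36 * (1 + D))
    simpa using this
  filter_upwards [eventually_gt_atTop (0 : ℝ), hlim.eventually_le_const (show (0:ℝ) < 1 by norm_num),
    hlim2.eventually_le_const hε] with L hL hL1 hL2
  intro d η1 hd hd' hη hη' B W z hz
  by_cases hzY : Y0 ≤ |z.im| * L
  · rw [if_pos hzY]
    have h := caseB (N0 := N0) hC W hκ hκ1 hj hY0 (by linarith) hτ hτ4 hτκ hL hd hd' hη hη' z hz hzY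
    refine ⟨h.1, h.2.trans ?_⟩
    have hpos : 0 ≤ N / (τ * L) := div_nonneg (by linarith) (by positivity)
    apply mul_le_mul_of_nonneg_left _ hpos
    linarith
  · rw [if_neg hzY, add_zero]
    push Not at hzY
    have hN0' : 36 * D ≤ ε * N0 := by
      have : ε * N0 = ε + 36 * D := by rw [hN0]; field_simp
      linarith
    have hmono : ε * N1 ≤ ε * N := mul_le_mul_of_nonneg_left hN hε.le
    have hexpand : ε * N1 = ε * (2 * N0) + A + A' := by
      rw [hN1]; field_simp
    have hp : 0 ≤ ε * (2 * N0) := by positivity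
    exact caseA hC W (by omega) hY0 hε hN0p hN0' (by linarith) (by linarith) (by linarith)
      hτ hτ4 hL hL1 hL2 hd hd' hη z hz hzY

end

end Pool.Agent.Y627.SW
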