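import Pool.Agent.Y745.SW.DefsA

set_option autoImplicit false

/-!
SW project (helper745, MP_6bc78b_nt), job MN: the mean square of the main term.
-/

namespace Pool.Agent.Y627.SW

open Filter Topology MeasureTheory Pool.Agent.Y745.SW

noncomputable section

/-- the Gaussian density -/
def g (x : ℝ) : ℝ := 1 / Real.sqrt (2 * Real.pi) * Real.exp (-x ^ 2 / 2)

lemma g_cont : Continuous g := by unfold g; fun_prop

lemma g_nonneg (x : ℝ) : 0 ≤ g x := by unfold g; positivity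

lemma g_neg (x : ℝ) : g (-x) = g x := by unfold g; simp

lemma g_eq (x : ℝ) : g x = 1 / Real.sqrt (2 * Real.pi) * Real.exp (-(1 / 2 : ℝ) * x ^ 2) := by
  unfold g; congr 2; ring

lemma g_integrable : Integrable g := by
  have h := (integrable_exp_neg_mul_sq (b := (1 / 2 : ℝ)) (by norm_num)).const_mul
    (1 / Real.sqrt (2 * Real.pi))
  refine h.congr (Eventually.of_forall fun x => ?_)
  simp only [g_eq]

lemma g_int : ∫ x, g x = 1 := by
  simp_rw [g_eq]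
  rw [integral_const_mul, integral_gaussian]
  have h2 : Real.pi / (1 / 2 : ℝ) = 2 * Real.pi := by ring
  rw [h2]
  have : 0 < Real.sqrt (2 * Real.pi) := by positivity
  field_simp

lemma g_interval {a b : ℝ} (h : a ≤ b) : ∫ x in a..b, g x ≤ 1 := by
  rw [intervalIntegral.integral_of_le h, ← g_int]
  exact setIntegral_le_integral g_integrable (Eventually.of_forall g_nonneg)

lemma cs (B : ℝ → ℝ) (hB : Continuous B) (a u : ℝ) (ha : 0 < a) :
    (∫ ξ in (-1:ℝ)..1, B ξ * g (u + ξ * a)) ^ 2 ≤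
      1 / a * ∫ ξ in (-1:ℝ)..1, B ξ ^ 2 * g (u + ξ * a) := by
  have hg := g_cont
  set S := ∫ ξ in (-1:ℝ)..1, B ξ * g (u + ξ * a) with hS
  have hG : ∫ ξ in (-1:ℝ)..1, g (u + ξ * a) ≤ 1 / a := by
    have h1 : ∫ ξ in (-1:ℝ)..1, g (u + ξ * a) = ∫ ξ in (-1:ℝ)..1, g (u + a * ξ) := by
      congr 1; ext ξ; rw [mul_comm]
    rw [h1, intervalIntegral.integral_comp_add_mul _ ha.ne', smul_eq_mul]
    have h2 := g_interval (a := u + a * -1) (b := u + a * 1) (by linarith)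
    have h3 : 0 < a⁻¹ := by positivity
    calc a⁻¹ * ∫ x in (u + a * -1)..(u + a * 1), g x ≤ a⁻¹ * 1 :=
          mul_le_mul_of_nonneg_left h2 h3.le
      _ = 1 / a := by rw [mul_one, one_div]
  have h0 : 0 ≤ ∫ ξ in (-1:ℝ)..1, (B ξ - a * S) ^ 2 * g (u + ξ * a) := by
    apply intervalIntegral.integral_nonneg (by norm_num)
    intro ξ _
    exact mul_nonneg (sq_nonneg _) (g_nonneg _)
  have h1 : ∫ ξ in (-1:ℝ)..1, (B ξ - a * S) ^ 2 * g (u + ξ * a) =
      (∫ ξ in (-1:ℝ)..1, B ξ ^ 2 * g (u + ξ * a)) - 2 * a * S * S +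
        (a * S) ^ 2 * ∫ ξ in (-1:ℝ)..1, g (u + ξ * a) := by
    have e : ∀ ξ : ℝ, (B ξ - a * S) ^ 2 * g (u + ξ * a) =
        B ξ ^ 2 * g (u + ξ * a) - (2 * a * S) * (B ξ * g (u + ξ * a)) +
          (a * S) ^ 2 * g (u + ξ * a) := fun ξ => by ring
    simp_rw [e]
    have i1 : IntervalIntegrable (fun ξ => B ξ ^ 2 * g (u + ξ * a)) volume (-1) 1 :=
      Continuous.intervalIntegrable (by fun_prop) _ _
    have i2 : IntervalIntegrable (fun ξ => (2 * a * S) * (B ξ * g (u + ξ * a))) volume (-1) 1 :=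
      Continuous.intervalIntegrable (by fun_prop) _ _
    have i3 : IntervalIntegrable (fun ξ => (a * S) ^ 2 * g (u + ξ * a)) volume (-1) 1 :=
      Continuous.intervalIntegrable (by fun_prop) _ _
    rw [intervalIntegral.integral_add (i1.sub i2) i3, intervalIntegral.integral_sub i1 i2,
      intervalIntegral.integral_const_mul, intervalIntegral.integral_const_mul]
  rw [h1] at h0
  have h2 : (a * S) ^ 2 * ∫ ξ in (-1:ℝ)..1, g (u + ξ * a) ≤ (a * S) ^ 2 * (1 / a) :=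
    mul_le_mul_of_nonneg_left hG (sq_nonneg _)
  have h3 : (a * S) ^ 2 * (1 / a) = a * S * S := by field_simp
  have h4 : a * S * S ≤ ∫ ξ in (-1:ℝ)..1, B ξ ^ 2 * g (u + ξ * a) := by nlinarith
  rw [one_div, ← div_eq_inv_mul, le_div_iff₀ ha]
  nlinarith

lemma Mu_eq (B : ℝ → ℝ) (a L u : ℝ) :
    Mu B a L u = L * ∫ ξ in (-1:ℝ)..1, B ξ * g (u + ξ * a) := by
  unfold Mu g
  have e : ∀ ξ : ℝ, B ξ * (1 / Real.sqrt (2 * Real.pi) * Real.exp (-(u + ξ * a) ^ 2 / 2)) =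
      1 / Real.sqrt (2 * Real.pi) * (B ξ * Real.exp (-(u + ξ * a) ^ 2 / 2)) := fun ξ => by ring
  simp_rw [e]
  rw [intervalIntegral.integral_const_mul]
  ring

lemma Mu_even (B : ℝ → ℝ) (hB : ∀ ξ, B (-ξ) = B ξ) (a L u : ℝ) : Mu B a L (-u) = Mu B a L u := by
  rw [Mu_eq, Mu_eq]
  congr 1
  have h := intervalIntegral.integral_comp_neg (f := fun ξ => B ξ * g (-u + ξ * a)) (a := -1) (b := 1)
  simp only [neg_neg] at h
  rw [← h]
  congr 1
  ext ξ
  rw [hB, ← g_neg]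
  congr 2
  ring

lemma Mu_cont (B : ℝ → ℝ) (hB : Continuous B) (a L : ℝ) : Continuous (Mu B a L) := by
  have : (Mu B a L) = fun u => L * ∫ ξ in (-1:ℝ)..1, B ξ * g (u + ξ * a) := by
    ext u; exact Mu_eq B a L u
  rw [this]
  have hg := g_cont
  have h := intervalIntegral.continuous_parametric_intervalIntegral_of_continuous'
    (μ := volume) (f := fun u ξ : ℝ => B ξ * g (u + ξ * a)) (by fun_prop) (-1) 1
  exact continuous_const.mul h

lemma Mu_sq_int (B : ℝ → ℝ) (hB : Continuous B) (a L Λ : ℝ) (ha : 0 < a) (hΛ : 0 < Λ) :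
    ∫ u in (-Λ)..Λ, Mu B a L u ^ 2 ≤ L ^ 2 / a * ∫ ξ in (-1:ℝ)..1, B ξ ^ 2 := by
  have hg := g_cont
  have h1 : ∫ u in (-Λ)..Λ, Mu B a L u ^ 2 ≤
      ∫ u in (-Λ)..Λ, (L ^ 2 / a) * ∫ ξ in (-1:ℝ)..1, B ξ ^ 2 * g (u + ξ * a) := by
    apply intervalIntegral.integral_mono_on (by linarith)
    · exact ((Mu_cont B hB a L).pow 2).intervalIntegrable _ _
    · apply Continuous.intervalIntegrable
      have h := intervalIntegral.continuous_parametric_intervalIntegral_of_continuous'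
        (μ := volume) (f := fun u ξ : ℝ => B ξ ^ 2 * g (u + ξ * a)) (by fun_prop) (-1) 1
      exact continuous_const.mul h
    · intro u _
      rw [Mu_eq, mul_pow]
      have h := cs B hB a u ha
      calc L ^ 2 * (∫ ξ in (-1:ℝ)..1, B ξ * g (u + ξ * a)) ^ 2
          ≤ L ^ 2 * (1 / a * ∫ ξ in (-1:ℝ)..1, B ξ ^ 2 * g (u + ξ * a)) :=
            mul_le_mul_of_nonneg_left h (sq_nonneg _)
        _ = (L ^ 2 / a) * ∫ ξ in (-1:ℝ)..1, B ξ ^ 2 * g (u + ξ * a) := by ring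
  have h2 : ∫ u in (-Λ)..Λ, (L ^ 2 / a) * ∫ ξ in (-1:ℝ)..1, B ξ ^ 2 * g (u + ξ * a) =
      (L ^ 2 / a) * ∫ u in (-Λ)..Λ, ∫ ξ in (-1:ℝ)..1, B ξ ^ 2 * g (u + ξ * a) := by
    rw [intervalIntegral.integral_const_mul]
  have h3 : ∫ u in (-Λ)..Λ, ∫ ξ in (-1:ℝ)..1, B ξ ^ 2 * g (u + ξ * a) =
      ∫ ξ in (-1:ℝ)..1, ∫ u in (-Λ)..Λ, B ξ ^ 2 * g (u + ξ * a) := by
    apply intervalIntegral_intervalIntegral_swap
    have hc : Continuous (Function.uncurry fun u ξ : ℝ => B ξ ^ 2 * g (u + ξ * a)) := by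
      unfold Function.uncurry; fun_prop
    have hcomp : IsCompact (Set.uIcc (-Λ) Λ ×ˢ Set.uIcc (-1:ℝ) 1) :=
      isCompact_uIcc.prod isCompact_uIcc
    exact (hc.continuousOn.integrableOn_compact hcomp).mono_set
      (Set.prod_mono Set.uIoc_subset_uIcc Set.uIoc_subset_uIcc)
  have h4 : ∫ ξ in (-1:ℝ)..1, ∫ u in (-Λ)..Λ, B ξ ^ 2 * g (u + ξ * a) ≤
      ∫ ξ in (-1:ℝ)..1, B ξ ^ 2 := by
    apply intervalIntegral.integral_mono_on (by norm_num)
    · apply Continuous.intervalIntegrable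
      exact intervalIntegral.continuous_parametric_intervalIntegral_of_continuous'
        (μ := volume) (f := fun ξ u : ℝ => B ξ ^ 2 * g (u + ξ * a)) (by fun_prop) _ _
    · exact (hB.pow 2).intervalIntegrable _ _
    · intro ξ _
      rw [intervalIntegral.integral_const_mul, intervalIntegral.integral_comp_add_right]
      have h := g_interval (a := -Λ + ξ * a) (b := Λ + ξ * a) (by linarith)
      nlinarith [sq_nonneg (B ξ)]
  calc ∫ u in (-Λ)..Λ, Mu B a L u ^ 2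
      ≤ ∫ u in (-Λ)..Λ, (L ^ 2 / a) * ∫ ξ in (-1:ℝ)..1, B ξ ^ 2 * g (u + ξ * a) := h1
    _ = (L ^ 2 / a) * ∫ ξ in (-1:ℝ)..1, ∫ u in (-Λ)..Λ, B ξ ^ 2 * g (u + ξ * a) := by
        rw [h2, h3]
    _ ≤ L ^ 2 / a * ∫ ξ in (-1:ℝ)..1, B ξ ^ 2 :=
        mul_le_mul_of_nonneg_left h4 (by positivity)

/-- MN: the mean square of the main term -/
theorem t_MN : Pool.Agent.Y745.SW.P_MN := by
  intro B R R0 hB hBe hR hR0 a L Λ ha hL hΛ
  have hMc := Mu_cont B hB a L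
  have hR0' : 0 ≤ R0 := by
    have := hR0 0 ⟨le_refl _, zero_le_one⟩
    linarith [this.1, this.2]
  have h1 : ∫ x in (0:ℝ)..1, R x * Mu B a L (Λ * x) ^ 2 ≤
      ∫ x in (0:ℝ)..1, R0 * Mu B a L (Λ * x) ^ 2 := by
    apply intervalIntegral.integral_mono_on (by norm_num)
    · exact Continuous.intervalIntegrable (by fun_prop) _ _
    · exact Continuous.intervalIntegrable (by fun_prop) _ _
    · intro x hx
      exact mul_le_mul_of_nonneg_right (hR0 x hx).2 (sq_nonneg _)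
  have h2 : ∫ x in (0:ℝ)..1, R0 * Mu B a L (Λ * x) ^ 2 =
      R0 * (Λ⁻¹ * ∫ u in (0:ℝ)..Λ, Mu B a L u ^ 2) := by
    rw [intervalIntegral.integral_const_mul]
    congr 1
    rw [intervalIntegral.integral_comp_mul_left (fun u => Mu B a L u ^ 2) hΛ.ne', smul_eq_mul]
    simp
  have h3 : ∫ u in (-Λ)..Λ, Mu B a L u ^ 2 = 2 * ∫ u in (0:ℝ)..Λ, Mu B a L u ^ 2 := by
    have i : ∀ p q : ℝ, IntervalIntegrable (fun u => Mu B a L u ^ 2) volume p q := fun p q =>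
      (hMc.pow 2).intervalIntegrable p q
    rw [← intervalIntegral.integral_add_adjacent_intervals (i (-Λ) 0) (i 0 Λ)]
    have h := intervalIntegral.integral_comp_neg (f := fun u => Mu B a L u ^ 2) (a := 0) (b := Λ)
    simp only [neg_zero] at h
    rw [← h]
    simp_rw [Mu_even B hBe a L]
    ring
  have h4 := Mu_sq_int B hB a L Λ ha hΛ
  have hΛi : 0 < Λ⁻¹ := by positivity
  calc 2 * ∫ x in (0:ℝ)..1, R x * Mu B a L (Λ * x) ^ 2
      ≤ 2 * (R0 * (Λ⁻¹ * ∫ u in (0:ℝ)..Λ, Mu B a L u ^ 2)) := by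
        rw [← h2]; linarith
    _ = R0 * (Λ⁻¹ * ∫ u in (-Λ)..Λ, Mu B a L u ^ 2) := by rw [h3]; ring
    _ ≤ R0 * (Λ⁻¹ * (L ^ 2 / a * ∫ ξ in (-1:ℝ)..1, B ξ ^ 2)) := by
        gcongr
    _ = R0 * (L ^ 2 / (Λ * a)) * ∫ ξ in (-1:ℝ)..1, B ξ ^ 2 := by
        field_simp

end

end Pool.Agent.Y627.SW
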